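import Mathlib

/-!
# Half-radius ball covers of planar metric graphs: definitions and statements of the pieces
-/

set_option autoImplicit false

namespace Pool.Agent.R489.HB

open Finset

section Tri

variable {W : Type} [DecidableEq W]

/-- edges of the complex with the triangles `Φ` -/
def edg (Φ : Finset (Finset W)) : Finset (Finset W) := Φ.biUnion (fun f => f.powersetCard 2)

/-- vertices -/
def vts (Φ : Finset (Finset W)) : Finset W := Φ.biUnion id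

/-- triangles containing `e` -/
def fc (Φ : Finset (Finset W)) (e : Finset W) : Finset (Finset W) := Φ.filter (fun f => e ⊆ f)

/-- a triangulated sphere: every edge is in exactly two triangles, the links of the vertices are
connected, the complex is connected, and every cycle bounds (mod 2) -/
structure IsTri (Φ : Finset (Finset W)) : Prop where
  ne : Φ.Nonempty
  three : ∀ f ∈ Φ, f.card = 3
  two : ∀ e ∈ edg Φ, (fc Φ e).card = 2
  link : ∀ v : W, ∀ Ψ ⊆ fc Φ {v}, (∀ e ∈ edg Φ, v ∈ e → Even (fc Ψ e).card) →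
    Ψ = ∅ ∨ Ψ = fc Φ {v}
  conn : ∀ Ψ ⊆ Φ, (∀ e ∈ edg Φ, Even (fc Ψ e).card) → Ψ = ∅ ∨ Ψ = Φ
  sph : ∀ Z ⊆ edg Φ, (∀ v : W, Even (Z.filter (fun e => v ∈ e)).card) →
    ∃ Ψ ⊆ Φ, ∀ e ∈ edg Φ, (e ∈ Z ↔ Odd (fc Ψ e).card)

/-- replace `v` by `u` -/
def mv (u v : W) (f : Finset W) : Finset W := if v ∈ f then insert u (f.erase v) else f

/-- contraction of the edge `uv` (to `u`) -/
def contr (u v : W) (Φ : Finset (Finset W)) : Finset (Finset W) :=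
  (Φ.filter (fun f => ¬ ({u, v} ⊆ f))).image (mv u v)

/-- all common neighbours of `u`, `v` are apexes of triangles at `uv` -/
def Good (Φ : Finset (Finset W)) (u v : W) : Prop :=
  ∀ w, w ≠ u → w ≠ v → {u, w} ∈ edg Φ → {v, w} ∈ edg Φ → {u, v, w} ∈ Φ

/-- degree -/
def dg (Φ : Finset (Finset W)) (v : W) : ℕ := ((edg Φ).filter (fun e => v ∈ e)).card

/-- no separating triangles -/
def NF (Φ : Finset (Finset W)) : Prop :=
  ∀ T : Finset W, T.card = 3 → T.powersetCard 2 ⊆ edg Φ → T ∈ Φ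

/-- all elements of `e` are in the same class -/
def mono (a : W → Fin 3) (e : Finset W) : Prop := ∀ x ∈ e, ∀ y ∈ e, a x = a y

/-- vector of the edge `e` in the `i`-th matroid, relative to the outer triangle `T` -/
def vec (T : Finset W) (a : W → Fin 3) (i : Fin 3) (e : Finset W) : W → ZMod 2 := fun x =>
  if x ∈ e ∧ x ∉ T ∧ ((∀ y ∈ e, a y ≠ i) ∨ (a x = i ∧ ∃ y ∈ e, a y ≠ i)) then 1 else 0

/-- indicator -/
def ind (e : Finset W) : W → ZMod 2 := fun x => if x ∈ e then 1 else 0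

/-- the classes of `a` induce forests -/
def FC (Φ : Finset (Finset W)) (a : W → Fin 3) : Prop :=
  LinearIndepOn (ZMod 2) ind {e : Finset W | e ∈ edg Φ ∧ mono a e}

/-- the inner edges split into three sets, the `i`-th independent in the `i`-th matroid -/
def RD (Φ : Finset (Finset W)) (T : Finset W) (a : W → Fin 3) : Prop :=
  ∃ c : Finset W → Fin 3, ∀ i : Fin 3,
    LinearIndepOn (ZMod 2) (vec T a i) {e : Finset W | e ∈ edg Φ ∧ ¬ e ⊆ T ∧ c e = i}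

/-- the data of an inner vertex `v` of degree four with alternating link -/
structure D4 (Φ : Finset (Finset W)) (T : Finset W) (a : W → Fin 3) (v y1 y2 z1 z2 : W) :
    Prop where
  hv : v ∈ vts Φ
  hvT : v ∉ T
  hy : y1 ≠ y2
  hz : z1 ≠ z2
  ay : a y1 = a y2
  az : a z1 = a z2
  vy : a v ≠ a y1
  vz : a v ≠ a z1
  yz : a y1 ≠ a z1
  faces : fc Φ {v} = {{v, y1, z1}, {v, y1, z2}, {v, y2, z1}, {v, y2, z2}}
  non : {y1, y2} ∉ edg Φ

end Tri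

/-! ## Triangulated spheres -/

/-- vertices and edges of a contraction -/
def S_CONE : Prop := ∀ (W : Type) [DecidableEq W] (Φ : Finset (Finset W)) (u v : W),
  IsTri Φ → u ≠ v → {u, v} ∈ edg Φ → Good Φ u v → 5 ≤ (vts Φ).card →
  vts (contr u v Φ) = (vts Φ).erase v ∧
  edg (contr u v Φ) = ((edg Φ).erase {u, v}).image (mv u v)

/-- contraction preserves triangulated spheres -/
def S_CON : Prop := ∀ (W : Type) [DecidableEq W] (Φ : Finset (Finset W)) (u v : W),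
  IsTri Φ → u ≠ v → {u, v} ∈ edg Φ → Good Φ u v → 5 ≤ (vts Φ).card → IsTri (contr u v Φ)

/-- the two apexes `y1`, `y2` of the edge `uv` and the other triangles at the four sides: `g1` at
`{u, y1}`, `h1` at `{v, y1}`, `g2` at `{u, y2}`, `h2` at `{v, y2}` -/
structure Apx {W : Type} [DecidableEq W] (Φ : Finset (Finset W)) (u v y1 y2 : W)
    (g1 g2 h1 h2 : Finset W) : Prop where
  inj : Set.InjOn (mv u v) {f : Finset W | f ∈ Φ ∧ ¬ ({u, v} ⊆ f)}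
  y12 : y1 ≠ y2
  y1u : y1 ≠ u
  y1v : y1 ≠ v
  y2u : y2 ≠ u
  y2v : y2 ≠ v
  faces : fc Φ {u, v} = {{u, v, y1}, {u, v, y2}}
  common : ∀ w, w ≠ u → w ≠ v → ({u, w} ∈ edg Φ ∧ {v, w} ∈ edg Φ ↔ w = y1 ∨ w = y2)
  g1f : fc Φ {u, y1} = {{u, v, y1}, g1}
  h1f : fc Φ {v, y1} = {{u, v, y1}, h1}
  g2f : fc Φ {u, y2} = {{u, v, y2}, g2}
  h2f : fc Φ {v, y2} = {{u, v, y2}, h2}
  vg1 : v ∉ g1
  uh1 : u ∉ h1
  vg2 : v ∉ g2
  uh2 : u ∉ h2

def S_APEX : Prop := ∀ (W : Type) [DecidableEq W] (Φ : Finset (Finset W)) (u v : W),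
  IsTri Φ → u ≠ v → {u, v} ∈ edg Φ → Good Φ u v → 5 ≤ (vts Φ).card →
  ∃ (y1 y2 : W) (g1 g2 h1 h2 : Finset W), Apx Φ u v y1 y2 g1 g2 h1 h2

/-- counting triangles in an image under `mv` -/
def S_CNT : Prop := ∀ (W : Type) [DecidableEq W] (Ψ : Finset (Finset W)) (u v : W) (e : Finset W),
  u ≠ v → (∀ f ∈ Ψ, ¬ ({u, v} ⊆ f)) → Set.InjOn (mv u v) {f : Finset W | f ∈ Ψ} → v ∉ e →
  e.card = 2 →
  (u ∉ e → (fc (Ψ.image (mv u v)) e).card = (fc Ψ e).card) ∧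
  (u ∈ e → (fc (Ψ.image (mv u v)) e).card = (fc Ψ e).card + (fc Ψ (insert v (e.erase u))).card)

def S_CON2 : Prop := ∀ (W : Type) [DecidableEq W] (Φ : Finset (Finset W)) (u v : W),
  IsTri Φ → u ≠ v → {u, v} ∈ edg Φ → Good Φ u v → 5 ≤ (vts Φ).card →
  (contr u v Φ).Nonempty ∧ (∀ f ∈ contr u v Φ, f.card = 3) ∧
  ∀ e ∈ edg (contr u v Φ), (fc (contr u v Φ) e).card = 2

def S_CONL : Prop := ∀ (W : Type) [DecidableEq W] (Φ : Finset (Finset W)) (u v : W),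
  IsTri Φ → u ≠ v → {u, v} ∈ edg Φ → Good Φ u v → 5 ≤ (vts Φ).card →
  ∀ w : W, ∀ Ψ ⊆ fc (contr u v Φ) {w},
    (∀ e ∈ edg (contr u v Φ), w ∈ e → Even (fc Ψ e).card) → Ψ = ∅ ∨ Ψ = fc (contr u v Φ) {w}

def S_CONC : Prop := ∀ (W : Type) [DecidableEq W] (Φ : Finset (Finset W)) (u v : W),
  IsTri Φ → u ≠ v → {u, v} ∈ edg Φ → Good Φ u v → 5 ≤ (vts Φ).card →
  ∀ Ψ ⊆ contr u v Φ, (∀ e ∈ edg (contr u v Φ), Even (fc Ψ e).card) → Ψ = ∅ ∨ Ψ = contr u v Φ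

def S_CONS : Prop := ∀ (W : Type) [DecidableEq W] (Φ : Finset (Finset W)) (u v : W),
  IsTri Φ → u ≠ v → {u, v} ∈ edg Φ → Good Φ u v → 5 ≤ (vts Φ).card →
  ∀ Z ⊆ edg (contr u v Φ), (∀ w : W, Even (Z.filter (fun e => w ∈ e)).card) →
    ∃ Ψ ⊆ contr u v Φ, ∀ e ∈ edg (contr u v Φ), (e ∈ Z ↔ Odd (fc Ψ e).card)

/-- the triangle `T'` (not a face) separates the faces into `Φ1` and `Φ2` -/
structure Sep {W : Type} [DecidableEq W] (Φ : Finset (Finset W)) (T' : Finset W)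
    (Φ1 Φ2 : Finset (Finset W)) : Prop where
  dis : Disjoint Φ1 Φ2
  uni : Φ1 ∪ Φ2 = Φ
  one1 : ∀ e ∈ T'.powersetCard 2, (fc Φ1 e).card = 1
  one2 : ∀ e ∈ T'.powersetCard 2, (fc Φ2 e).card = 1
  side : ∀ e ∈ edg Φ, e ∉ T'.powersetCard 2 → fc Φ1 e = ∅ ∨ fc Φ2 e = ∅

def S_SPLA : Prop := ∀ (W : Type) [DecidableEq W] (Φ : Finset (Finset W)) (T T' : Finset W),
  IsTri Φ → T ∈ Φ → T'.card = 3 → T' ∉ Φ → T'.powersetCard 2 ⊆ edg Φ →
  ∃ Φ1 Φ2 : Finset (Finset W), T ∈ Φ1 ∧ Sep Φ T' Φ1 Φ2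

def S_SPLB : Prop := ∀ (W : Type) [DecidableEq W] (Φ Φ1 Φ2 : Finset (Finset W))
  (T' : Finset W), IsTri Φ → T'.card = 3 → T' ∉ Φ → T'.powersetCard 2 ⊆ edg Φ →
  Sep Φ T' Φ1 Φ2 →
  vts Φ1 ∩ vts Φ2 = T' ∧ edg Φ1 ∩ edg Φ2 = T'.powersetCard 2 ∧
    edg (insert T' Φ1) = edg Φ1 ∧ vts (insert T' Φ1) = vts Φ1 ∧
    (vts (insert T' Φ1)).card < (vts Φ).card

def S_SPLC : Prop := ∀ (W : Type) [DecidableEq W] (Φ Φ1 Φ2 : Finset (Finset W))
  (T' : Finset W), IsTri Φ → T'.card = 3 → T' ∉ Φ → T'.powersetCard 2 ⊆ edg Φ →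
  Sep Φ T' Φ1 Φ2 →
  (insert T' Φ1).Nonempty ∧ (∀ f ∈ insert T' Φ1, f.card = 3) ∧
  (∀ e ∈ edg (insert T' Φ1), (fc (insert T' Φ1) e).card = 2) ∧
  (∀ v : W, ∀ Ψ ⊆ fc (insert T' Φ1) {v},
    (∀ e ∈ edg (insert T' Φ1), v ∈ e → Even (fc Ψ e).card) →
    Ψ = ∅ ∨ Ψ = fc (insert T' Φ1) {v}) ∧
  (∀ Ψ ⊆ insert T' Φ1, (∀ e ∈ edg (insert T' Φ1), Even (fc Ψ e).card) →
    Ψ = ∅ ∨ Ψ = insert T' Φ1)

def S_SPLD : Prop := ∀ (W : Type) [DecidableEq W] (Φ Φ1 Φ2 : Finset (Finset W))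
  (T' : Finset W), IsTri Φ → T'.card = 3 → T' ∉ Φ → T'.powersetCard 2 ⊆ edg Φ →
  Sep Φ T' Φ1 Φ2 →
  ∀ Z ⊆ edg (insert T' Φ1), (∀ v : W, Even (Z.filter (fun e => v ∈ e)).card) →
    ∃ Ψ ⊆ insert T' Φ1, ∀ e ∈ edg (insert T' Φ1), (e ∈ Z ↔ Odd (fc Ψ e).card)

/-- splitting at a separating triangle -/
def S_SPL : Prop := ∀ (W : Type) [DecidableEq W] (Φ : Finset (Finset W)) (T T' : Finset W),
  IsTri Φ → T ∈ Φ → T'.card = 3 → T' ∉ Φ → T'.powersetCard 2 ⊆ edg Φ →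
  ∃ Φ1 Φ2 : Finset (Finset W), Disjoint Φ1 Φ2 ∧ Φ1 ∪ Φ2 = Φ ∧ T ∈ Φ1 ∧
    IsTri (insert T' Φ1) ∧ IsTri (insert T' Φ2) ∧
    vts Φ1 ∩ vts Φ2 = T' ∧ edg Φ1 ∩ edg Φ2 = T'.powersetCard 2 ∧
    (vts (insert T' Φ1)).card < (vts Φ).card ∧ (vts (insert T' Φ2)).card < (vts Φ).card

/-- Euler's formula -/
def S_EUL : Prop := ∀ (W : Type) [DecidableEq W] (Φ : Finset (Finset W)), IsTri Φ →
  (edg Φ).card + 6 = 3 * (vts Φ).card

/-- at least four vertices, all degrees are at least three -/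
def S_DG3 : Prop := ∀ (W : Type) [DecidableEq W] (Φ : Finset (Finset W)), IsTri Φ →
  4 ≤ (vts Φ).card ∧ (∀ v ∈ vts Φ, 3 ≤ dg Φ v ∧ (fc Φ {v}).card = dg Φ v) ∧
  ∑ v ∈ vts Φ, dg Φ v = 2 * (edg Φ).card

/-- without separating triangles all degrees are at least four -/
def S_DG4 : Prop := ∀ (W : Type) [DecidableEq W] (Φ : Finset (Finset W)), IsTri Φ → NF Φ →
  5 ≤ (vts Φ).card → ∀ v ∈ vts Φ, 4 ≤ dg Φ v

/-- an inner vertex of degree at most five -/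
def S_LOW : Prop := ∀ (W : Type) [DecidableEq W] (Φ : Finset (Finset W)) (T : Finset W),
  IsTri Φ → T ∈ Φ → ∃ v ∈ vts Φ, v ∉ T ∧ dg Φ v ≤ 5

/-- an inner vertex of degree four when only the outer triangle may have an edge in a class -/
def S_EX4 : Prop := ∀ (W : Type) [DecidableEq W] (Φ : Finset (Finset W)) (T : Finset W)
  (a : W → Fin 3), IsTri Φ → T ∈ Φ → NF Φ → 5 ≤ (vts Φ).card →
  (∀ e ∈ edg Φ, mono a e → e ⊆ T) → ¬ mono a T →
  ∃ v y1 y2 z1 z2 : W, D4 Φ T a v y1 y2 z1 z2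

/-! ## Decompositions -/

def S_MONO : Prop := ∀ (W : Type) [DecidableEq W] (Φ : Finset (Finset W)) (T : Finset W)
  (a : W → Fin 3) (u v : W), IsTri Φ → T ∈ Φ → u ≠ v → v ∉ T → {u, v} ∈ edg Φ → a u = a v →
  Good Φ u v → 5 ≤ (vts Φ).card → FC Φ a → RD (contr u v Φ) T a → RD Φ T a

/-- the kernel vector of the contraction of `uv` -/
def kap {W : Type} [DecidableEq W] (T : Finset W) (u v : W) : W → ZMod 2 := fun x =>
  if x ∉ T ∧ (x = u ∨ x = v) then 1 else 0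

/-- the lifted edges of the `i`-th part; `l1 ∈ {u, v}`, `l2 ∈ {u, v}`, and `{l1, y1}`, `{l2, y2}`
are the extra edges that are left out -/
def lifted {W : Type} [DecidableEq W] (Φ : Finset (Finset W)) (T : Finset W)
    (u v y1 y2 l1 l2 : W) (c' : Finset W → Fin 3) (i : Fin 3) : Set (Finset W) :=
  {e : Finset W | e ∈ edg Φ ∧ e ≠ {u, v} ∧ e ≠ {l1, y1} ∧ e ≠ {l2, y2} ∧
    ¬ mv u v e ⊆ T ∧ c' (mv u v e) = i}

/-- the lifted edges are independent and do not span the kernel vector -/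
def S_MLIFT : Prop := ∀ (W : Type) [DecidableEq W] (Φ : Finset (Finset W)) (T : Finset W)
  (a : W → Fin 3) (u v y1 y2 l1 l2 : W) (g1 g2 h1 h2 : Finset W) (c' : Finset W → Fin 3)
  (i : Fin 3), IsTri Φ → T ∈ Φ → u ≠ v →
  v ∉ T → {u, v} ∈ edg Φ → a u = a v → Good Φ u v → 5 ≤ (vts Φ).card →
  Apx Φ u v y1 y2 g1 g2 h1 h2 → (l1 = u ∨ l1 = v) → (l2 = u ∨ l2 = v) →
  LinearIndepOn (ZMod 2) (vec T a i)
    {e : Finset W | e ∈ edg (contr u v Φ) ∧ ¬ e ⊆ T ∧ c' e = i} →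
  LinearIndepOn (ZMod 2) (vec T a i) (lifted Φ T u v y1 y2 l1 l2 c' i) ∧
  kap T u v ∉ Submodule.span (ZMod 2) (vec T a i '' lifted Φ T u v y1 y2 l1 l2 c' i)

/-- computation of the vectors -/
def S_MVEC : Prop := ∀ (W : Type) [DecidableEq W] (T : Finset W)
  (a : W → Fin 3) (u v x : W) (i : Fin 3), u ≠ v → v ∉ T → a u = a v → x ≠ u → x ≠ v →
  (i ≠ a u → vec T a i {u, v} = kap T u v) ∧
  (i ≠ a x → vec T a i {u, x} + vec T a i {v, x} = kap T u v) ∧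
  (i ≠ a x → u ∈ T → x ∈ T → vec T a i {v, x} = kap T u v)

def S_LD4 : Prop := ∀ (W : Type) [DecidableEq W] (Φ : Finset (Finset W)) (T : Finset W)
  (a : W → Fin 3) (v y1 y2 z1 z2 : W), IsTri Φ → T ∈ Φ → 5 ≤ (vts Φ).card →
  D4 Φ T a v y1 y2 z1 z2 → RD (contr y1 v Φ) T a → RD Φ T a

def S_GLUE : Prop := ∀ (W : Type) [DecidableEq W] (Φ1 Φ2 : Finset (Finset W))
  (T T' : Finset W) (a : W → Fin 3), (∀ f ∈ Φ1 ∪ Φ2, f.card = 3) → T'.card = 3 → T ∈ Φ1 →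
  vts Φ1 ∩ vts Φ2 = T' → edg Φ1 ∩ edg Φ2 = T'.powersetCard 2 →
  RD (insert T' Φ1) T a → RD (insert T' Φ2) T' a → RD (Φ1 ∪ Φ2) T a

def S_BASE : Prop := ∀ (W : Type) [DecidableEq W] (Φ : Finset (Finset W)) (T : Finset W)
  (a : W → Fin 3), IsTri Φ → T ∈ Φ → (vts Φ).card = 4 → ¬ mono a T → RD Φ T a

/-! ## Forest classes -/

def S_FCM : Prop := ∀ (W : Type) [DecidableEq W] (Φ : Finset (Finset W)) (a : W → Fin 3),
  FC Φ a → ∀ T : Finset W, T.card = 3 → T.powersetCard 2 ⊆ edg Φ → ¬ mono a T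

def S_FCC : Prop := ∀ (W : Type) [DecidableEq W] (Φ : Finset (Finset W)) (a : W → Fin 3)
  (u v : W), IsTri Φ → u ≠ v → {u, v} ∈ edg Φ → a u = a v → Good Φ u v → 5 ≤ (vts Φ).card →
  FC Φ a → FC (contr u v Φ) a

def S_FCD : Prop := ∀ (W : Type) [DecidableEq W] (Φ : Finset (Finset W)) (T : Finset W)
  (a : W → Fin 3) (v y1 y2 z1 z2 : W), IsTri Φ → T ∈ Φ → 5 ≤ (vts Φ).card →
  (∀ e ∈ edg Φ, mono a e → e ⊆ T) → ¬ mono a T → D4 Φ T a v y1 y2 z1 z2 →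
  FC (contr y1 v Φ) a

def S_FCG : Prop := ∀ (W : Type) [DecidableEq W] (Φ1 Φ2 : Finset (Finset W)) (T' : Finset W)
  (a : W → Fin 3), (∀ f ∈ Φ1 ∪ Φ2, f.card = 3) → T'.card = 3 →
  vts Φ1 ∩ vts Φ2 = T' → edg Φ1 ∩ edg Φ2 = T'.powersetCard 2 →
  (FC (Φ1 ∪ Φ2) a ↔ FC (insert T' Φ1) a ∧ FC (insert T' Φ2) a)

def S_FCE : Prop := ∀ (W : Type) [DecidableEq W] (Φ : Finset (Finset W)) (a : W → Fin 3)
  (u v : W), IsTri Φ → u ≠ v → {u, v} ∈ edg Φ → Good Φ u v → 5 ≤ (vts Φ).card → dg Φ v ≤ 5 →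
  FC (contr u v Φ) a → ∃ β : Fin 3, FC Φ (Function.update a v β)

def S_FCB : Prop := ∀ (W : Type) [DecidableEq W] (Φ : Finset (Finset W)) (T : Finset W)
  (a : W → Fin 3), IsTri Φ → T ∈ Φ → (vts Φ).card = 4 → ¬ mono a T →
  ∃ b : W → Fin 3, (∀ x ∈ T, b x = a x) ∧ FC Φ b

/-! ## From the decomposition to a scheme of centres -/

/-- the `i`-th part of a graph with coloured edges -/
def part {V : Type} (G : SimpleGraph V) (c : V → V → Fin 3) (hc : ∀ u w, c u w = c w u)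
    (i : Fin 3) : SimpleGraph V where
  Adj u w := G.Adj u w ∧ c u w = i
  symm := ⟨fun u w h => ⟨h.1.symm, by rw [hc]; exact h.2⟩⟩
  loopless := ⟨fun u h => G.loopless.irrefl u h.1⟩

/-- the edges inside the classes -/
def inside {V : Type} (G : SimpleGraph V) (a : V → Fin 3) : SimpleGraph V where
  Adj u w := G.Adj u w ∧ a u = a w
  symm := ⟨fun u w h => ⟨h.1.symm, h.2.symm⟩⟩
  loopless := ⟨fun u h => G.loopless.irrefl u h.1⟩

/-- three forests; the vertices of class `i` are leaves of the `i`-th forest, attached to vertices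
of other classes; the classes induce forests -/
def Str {V : Type} (G : SimpleGraph V) (a : V → Fin 3) (c : V → V → Fin 3) : Prop :=
  (∃ hc : ∀ u w, c u w = c w u, ∀ i : Fin 3, (part G c hc i).IsAcyclic) ∧
  (inside G a).IsAcyclic ∧
  (∀ (i : Fin 3) (u w : V), G.Adj u w → c u w = i → ¬ (a u = i ∧ a w = i)) ∧
  (∀ (i : Fin 3) (u w w' : V), a u = i → G.Adj u w → c u w = i → G.Adj u w' → c u w' = i →
    w = w')

/-- the graph of a complex -/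
def gr {W : Type} [DecidableEq W] (Φ : Finset (Finset W)) : SimpleGraph W where
  Adj x y := x ≠ y ∧ {x, y} ∈ edg Φ
  symm := ⟨fun x y h => ⟨h.1.symm, by rw [Finset.pair_comm]; exact h.2⟩⟩
  loopless := ⟨fun x h => h.1 rfl⟩

def S_FOR : Prop := ∀ (W : Type) [DecidableEq W] (Φ : Finset (Finset W)) (T : Finset W)
  (a : W → Fin 3), IsTri Φ → T ∈ Φ → ¬ mono a T → FC Φ a → RD Φ T a →
  ∃ c : W → W → Fin 3, Str (gr Φ) a c

def S_STR : Prop := ∀ (V W : Type) (G : SimpleGraph V) (H : SimpleGraph W) (a : W → Fin 3)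
  (c : W → W → Fin 3) (φ : V → W), Function.Injective φ →
  (∀ u w, G.Adj u w → H.Adj (φ u) (φ w)) → Str H a c →
  Str G (fun u => a (φ u)) (fun u w => c (φ u) (φ w))

/-- a scheme: `A u i` means that there is a centre of colour `i` near `u`, on the edge from `u` to
`n u i`, at distance `t u i` from `u` -/
structure Sch {V : Type} (G : SimpleGraph V) (A : V → Fin 3 → Prop) (n : V → Fin 3 → V)
    (t : V → Fin 3 → ℝ) : Prop where
  adj : ∀ u i, A u i → G.Adj u (n u i)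
  pos : ∀ u i, 0 < t u i
  half : ∀ u i, t u i < 1 / 2
  less : ∀ u i, A u i → A (n u i) i → t u i < t (n u i) i
  vert : ∀ u w, G.Adj u w → ∃ i, A u i
  cover : ∀ u w, G.Adj u w → (∃ i j, A u i ∧ n u i = w ∧ A w j ∧ t w j ≤ t u i) ∨
    (∃ i j, A w i ∧ n w i = u ∧ A u j ∧ t u j ≤ t w i)

/-- rooted forests -/
def S_ROOT : Prop := ∀ (V : Type) [Fintype V] (F : SimpleGraph V), F.IsAcyclic →
  ∃ (par : V → V) (dep : V → ℕ), ∀ u w, F.Adj u w →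
    (par u = w ∧ dep u = dep w + 1) ∨ (par w = u ∧ dep w = dep u + 1)

def S_SCH : Prop := ∀ (V : Type) [Fintype V] (G : SimpleGraph V) (a : V → Fin 3)
  (c : V → V → Fin 3), Str G a c → ∃ A n t, Sch G A n t

/-! ## The continuous graph -/

/-- a point of the continuous graph: a vertex `u = w`, `s = 0`, or the point at distance `s` from
`u` on the edge `uw` (a vertex has several representations) -/
structure Pt {V : Type} (G : SimpleGraph V) where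
  u : V
  w : V
  s : ℝ
  h : (u = w ∧ s = 0) ∨ (G.Adj u w ∧ 0 ≤ s ∧ s ≤ 1)

/-- `x` is an end of the edge of `p`, at distance `α` from `p` along the edge -/
def Pt.End {V : Type} {G : SimpleGraph V} (p : Pt G) (x : V) (α : ℝ) : Prop :=
  (x = p.u ∧ α = p.s) ∨ (p.u ≠ p.w ∧ x = p.w ∧ α = 1 - p.s)

/-- some path from `p` to `q` has length at most `r` -/
def dle {V : Type} {G : SimpleGraph V} (p q : Pt G) (r : ℝ) : Prop :=
  (p.u = q.u ∧ p.w = q.w ∧ |p.s - q.s| ≤ r) ∨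
  (G.Adj p.u p.w ∧ p.u = q.w ∧ p.w = q.u ∧ |p.s - (1 - q.s)| ≤ r) ∨
  ∃ (x y : V) (α β : ℝ) (k : G.Walk x y), p.End x α ∧ q.End y β ∧ α + k.length + β ≤ r

/-- the closed ball of radius `1/2` -/
def hball {V : Type} {G : SimpleGraph V} (p : Pt G) : Set (Pt G) := {q | dle p q (1 / 2)}

/-- `(1/2, c)`-colourable -/
def HalfColourable {V : Type} (G : SimpleGraph V) (c : ℕ) : Prop :=
  ∃ (B : Set (Set (Pt G))) (f : Set (Pt G) → Fin c), (∀ b ∈ B, ∃ p, b = hball p) ∧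
    (∀ q : Pt G, ∃ b ∈ B, q ∈ b) ∧
    ∀ b ∈ B, ∀ b' ∈ B, b ≠ b' → (b ∩ b').Nonempty → f b ≠ f b'

def S_TRI : Prop := ∀ (V : Type) (G : SimpleGraph V) (p q r : Pt G) (α β : ℝ),
  dle p q α → dle r q β → dle p r (α + β)

def S_CNF : Prop := ∀ (V : Type) (G : SimpleGraph V) (A : V → Fin 3 → Prop)
  (n : V → Fin 3 → V) (t : V → Fin 3 → ℝ), Sch G A n t → ∀ (u u' : V) (i : Fin 3) (p q : Pt G),
  A u i → A u' i → p.u = u → p.w = n u i → p.s = t u i → q.u = u' → q.w = n u' i →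
  q.s = t u' i → dle p q 1 → u = u'

def S_GEO : Prop := ∀ (V : Type) (G : SimpleGraph V) (A : V → Fin 3 → Prop)
  (n : V → Fin 3 → V) (t : V → Fin 3 → ℝ), Sch G A n t → HalfColourable G 3

/-- planar: embeds into the graph of a triangulated sphere -/
def Planar {V : Type} (G : SimpleGraph V) : Prop :=
  ∃ (W : Type) (_ : DecidableEq W) (Φ : Finset (Finset W)) (φ : V → W), IsTri Φ ∧
    Function.Injective φ ∧ ∀ u w, G.Adj u w → {φ u, φ w} ∈ edg Φ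

end Pool.Agent.R489.HB
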