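import Pool.Agent.R489.HB.Mono

set_option autoImplicit false

namespace Pool.Agent.R489.HB

open Finset

theorem CON (h2 : S_CON2) (hl : S_CONL) (hc : S_CONC) (hs : S_CONS) : S_CON := by
  intro W _ Φ u v hΦ huv he hg hn
  obtain ⟨a, b, c⟩ := h2 W Φ u v hΦ huv he hg hn
  exact ⟨a, b, c, hl W Φ u v hΦ huv he hg hn, hc W Φ u v hΦ huv he hg hn,
    hs W Φ u v hΦ huv he hg hn⟩

theorem Sep.symm {W : Type} [DecidableEq W] {Φ Φ1 Φ2 : Finset (Finset W)} {T' : Finset W}
    (h : Sep Φ T' Φ1 Φ2) : Sep Φ T' Φ2 Φ1 :=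
  ⟨h.dis.symm, by rw [Finset.union_comm]; exact h.uni, h.one2, h.one1,
    fun e he he' => (h.side e he he').symm⟩

theorem SPL (hA : S_SPLA) (hB : S_SPLB) (hC : S_SPLC) (hD : S_SPLD) : S_SPL := by
  intro W _ Φ T T' hΦ hT h3 hT' hp
  obtain ⟨Φ1, Φ2, hT1, hs⟩ := hA W Φ T T' hΦ hT h3 hT' hp
  obtain ⟨b1, b2, b3, b4, b5⟩ := hB W Φ Φ1 Φ2 T' hΦ h3 hT' hp hs
  obtain ⟨c1, c2, c3, c4, c5⟩ := hB W Φ Φ2 Φ1 T' hΦ h3 hT' hp hs.symm
  obtain ⟨d1, d2, d3, d4, d5⟩ := hC W Φ Φ1 Φ2 T' hΦ h3 hT' hp hs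
  obtain ⟨e1, e2, e3, e4, e5⟩ := hC W Φ Φ2 Φ1 T' hΦ h3 hT' hp hs.symm
  exact ⟨Φ1, Φ2, hs.dis, hs.uni, hT1, ⟨d1, d2, d3, d4, d5, hD W Φ Φ1 Φ2 T' hΦ h3 hT' hp hs⟩,
    ⟨e1, e2, e3, e4, e5, hD W Φ Φ2 Φ1 T' hΦ h3 hT' hp hs.symm⟩, b1, b2, b5, c5⟩

theorem ps_sub {W : Type} [DecidableEq W] {Φ : Finset (Finset W)} {T : Finset W} (h : T ∈ Φ) :
    T.powersetCard 2 ⊆ edg Φ := by
  intro e he
  rw [Finset.mem_powersetCard] at he
  exact mem_edg.2 ⟨T, h, he.1, he.2⟩

theorem good_of_NF {W : Type} [DecidableEq W] {Φ : Finset (Finset W)} (h : NF Φ) {u v : W}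
    (huv : u ≠ v) (he : {u, v} ∈ edg Φ) : Good Φ u v := by
  intro w hwu hwv h1 h2
  apply h
  · rw [Finset.card_eq_three]
    exact ⟨u, v, w, huv, hwu.symm, hwv.symm, rfl⟩
  · intro e' he'
    rw [Finset.mem_powersetCard] at he'
    obtain ⟨x, y, hxy, rfl⟩ := Finset.card_eq_two.1 he'.2
    have hx : x ∈ ({u, v, w} : Finset W) := he'.1 (by simp)
    have hy : y ∈ ({u, v, w} : Finset W) := he'.1 (by simp)
    simp only [Finset.mem_insert, Finset.mem_singleton] at hx hy
    rcases hx with rfl | rfl | rfl <;> rcases hy with rfl | rfl | rfl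
    · exact absurd rfl hxy
    · exact he
    · exact h1
    · rw [Finset.pair_comm]; exact he
    · exact absurd rfl hxy
    · exact h2
    · rw [Finset.pair_comm]; exact h1
    · rw [Finset.pair_comm]; exact h2
    · exact absurd rfl hxy

theorem mem_contr {W : Type} [DecidableEq W] {Φ : Finset (Finset W)} {u v : W} {T : Finset W}
    (h : T ∈ Φ) (hv : v ∉ T) : T ∈ contr u v Φ := by
  simp only [contr, Finset.mem_image, Finset.mem_filter]
  refine ⟨T, ⟨h, fun hh => hv (hh (by simp))⟩, ?_⟩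
  simp [mv, hv]

theorem D4good {W : Type} [DecidableEq W] {Φ : Finset (Finset W)} {T : Finset W} {a : W → Fin 3}
    {v y1 y2 z1 z2 : W} (h : D4 Φ T a v y1 y2 z1 z2) :
    y1 ≠ v ∧ {y1, v} ∈ edg Φ := by
  have hf : ({v, y1, z1} : Finset W) ∈ Φ := by
    have : ({v, y1, z1} : Finset W) ∈ fc Φ {v} := by rw [h.faces]; simp
    exact (mem_fc.1 this).1
  have hne : y1 ≠ v := by
    rintro rfl
    exact h.vy rfl
  refine ⟨hne, mem_edg.2 ⟨_, hf, ?_, Finset.card_pair hne⟩⟩
  intro x hx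
  simp only [Finset.mem_insert, Finset.mem_singleton] at hx ⊢
  tauto

theorem not_NF {W : Type} [DecidableEq W] {Φ : Finset (Finset W)} (h : ¬ NF Φ) :
    ∃ T' : Finset W, T'.card = 3 ∧ T'.powersetCard 2 ⊆ edg Φ ∧ T' ∉ Φ := by
  unfold NF at h
  push Not at h
  exact h

theorem RDALL (hCONE : S_CONE) (hCON : S_CON) (hSPL : S_SPL) (hDG3 : S_DG3) (hEX4 : S_EX4)
    (hMONO : S_MONO) (hLD4 : S_LD4) (hGLUE : S_GLUE) (hBASE : S_BASE) (hFCM : S_FCM)
    (hFCC : S_FCC) (hFCD : S_FCD) (hFCG : S_FCG) :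
    ∀ (n : ℕ) (W : Type) [DecidableEq W] (Φ : Finset (Finset W)) (T : Finset W)
      (a : W → Fin 3), (vts Φ).card = n → IsTri Φ → T ∈ Φ → FC Φ a → RD Φ T a := by
  intro n
  induction n using Nat.strong_induction_on with
  | _ n ih =>
    intro W _ Φ T a hn hΦ hT hF
    have hmT : ¬ mono a T := hFCM W Φ a hF T (hΦ.three T hT) (ps_sub hT)
    have h4 : 4 ≤ (vts Φ).card := (hDG3 W Φ hΦ).1
    by_cases hN : NF Φ
    · by_cases h5 : (vts Φ).card = 4
      · exact hBASE W Φ T a hΦ hT h5 hmT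
      · have hn5 : 5 ≤ (vts Φ).card := by omega
        by_cases hm : ∀ e ∈ edg Φ, mono a e → e ⊆ T
        · obtain ⟨v, y1, y2, z1, z2, D⟩ := hEX4 W Φ T a hΦ hT hN hn5 hm hmT
          obtain ⟨hne, he⟩ := D4good D
          have hg := good_of_NF hN hne he
          have hΦ' := hCON W Φ y1 v hΦ hne he hg hn5
          have hv := (hCONE W Φ y1 v hΦ hne he hg hn5).1
          have hF' := hFCD W Φ T a v y1 y2 z1 z2 hΦ hT hn5 hm hmT D
          have hlt : (vts (contr y1 v Φ)).card < n := by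
            rw [hv, Finset.card_erase_of_mem D.hv]
            omega
          exact hLD4 W Φ T a v y1 y2 z1 z2 hΦ hT hn5 D
            (ih _ hlt W _ T a rfl hΦ' (mem_contr hT D.hvT) hF')
        · push Not at hm
          obtain ⟨e, he, hme, heT⟩ := hm
          obtain ⟨v, hve, hvT⟩ := Finset.not_subset.1 heT
          obtain ⟨f, hf, hef, hcard⟩ := mem_edg.1 he
          obtain ⟨u, hu⟩ : ∃ b, e.erase v = {b} := by
            rw [← Finset.card_eq_one, Finset.card_erase_of_mem hve, hcard]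
          have heq : e = {u, v} := by
            rw [← Finset.insert_erase hve, hu, Finset.pair_comm]
          have huv : u ≠ v := by
            have : u ∈ e.erase v := by rw [hu]; simp
            exact (Finset.mem_erase.1 this).1
          rw [heq] at he hme
          have ha : a u = a v := hme u (by simp) v (by simp)
          have hg := good_of_NF hN huv he
          have hΦ' := hCON W Φ u v hΦ huv he hg hn5
          have hv := (hCONE W Φ u v hΦ huv he hg hn5).1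
          have hvv : v ∈ vts Φ := by
            simp only [vts, Finset.mem_biUnion, id]
            exact ⟨f, hf, hef hve⟩
          have hF' := hFCC W Φ a u v hΦ huv he ha hg hn5 hF
          have hlt : (vts (contr u v Φ)).card < n := by
            rw [hv, Finset.card_erase_of_mem hvv]
            omega
          exact hMONO W Φ T a u v hΦ hT huv hvT he ha hg hn5 hF
            (ih _ hlt W _ T a rfl hΦ' (mem_contr hT hvT) hF')
    · obtain ⟨T', h3, hp, hT'⟩ := not_NF hN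
      obtain ⟨Φ1, Φ2, hd, hu, hT1, hI1, hI2, hv, he, hc1, hc2⟩ := hSPL W Φ T T' hΦ hT h3 hT' hp
      have hthree : ∀ f ∈ Φ1 ∪ Φ2, f.card = 3 := by rw [hu]; exact hΦ.three
      rw [← hu] at hF
      obtain ⟨hF1, hF2⟩ := (hFCG W Φ1 Φ2 T' a hthree h3 hv he).1 hF
      have r1 := ih _ (by rw [← hn]; exact hc1) W (insert T' Φ1) T a rfl hI1
        (Finset.mem_insert_of_mem hT1) hF1
      have r2 := ih _ (by rw [← hn]; exact hc2) W (insert T' Φ2) T' a rfl hI2
        (Finset.mem_insert_self _ _) hF2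
      rw [← hu]
      exact hGLUE W Φ1 Φ2 T T' a hthree h3 hT1 hv he r1 r2

theorem mem_vts_of_edg {W : Type} [DecidableEq W] {Φ : Finset (Finset W)} {e : Finset W} {x : W}
    (he : e ∈ edg Φ) (hx : x ∈ e) : x ∈ vts Φ := by
  obtain ⟨f, hf, hef, -⟩ := mem_edg.1 he
  simp only [vts, Finset.mem_biUnion, id]
  exact ⟨f, hf, hef hx⟩

theorem FC_congr {W : Type} [DecidableEq W] {Φ : Finset (Finset W)} {a b : W → Fin 3}
    (h : ∀ x ∈ vts Φ, a x = b x) (hF : FC Φ a) : FC Φ b := by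
  unfold FC at hF ⊢
  refine hF.mono ?_
  rintro e ⟨he, hm⟩
  refine ⟨he, ?_⟩
  intro x hx y hy
  rw [h x (mem_vts_of_edg he hx), h y (mem_vts_of_edg he hy)]
  exact hm x hx y hy

theorem COLALL (hCONE : S_CONE) (hCON : S_CON) (hSPL : S_SPL) (hDG3 : S_DG3) (hLOW : S_LOW)
    (hFCM : S_FCM) (hFCG : S_FCG) (hFCE : S_FCE) (hFCB : S_FCB) :
    ∀ (n : ℕ) (W : Type) [DecidableEq W] (Φ : Finset (Finset W)) (T : Finset W)
      (a : W → Fin 3), (vts Φ).card = n → IsTri Φ → T ∈ Φ → ¬ mono a T →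
      ∃ b : W → Fin 3, (∀ x ∈ T, b x = a x) ∧ FC Φ b := by
  intro n
  induction n using Nat.strong_induction_on with
  | _ n ih =>
    intro W _ Φ T a hn hΦ hT hmT
    have h4 : 4 ≤ (vts Φ).card := (hDG3 W Φ hΦ).1
    by_cases hN : NF Φ
    · by_cases h5 : (vts Φ).card = 4
      · exact hFCB W Φ T a hΦ hT h5 hmT
      · have hn5 : 5 ≤ (vts Φ).card := by omega
        obtain ⟨v, hv, hvT, hdg⟩ := hLOW W Φ T hΦ hT
        have hd3 := ((hDG3 W Φ hΦ).2.1 v hv).1
        have hne : ((edg Φ).filter (fun e => v ∈ e)).Nonempty := by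
          rw [← Finset.card_pos]
          have : dg Φ v = ((edg Φ).filter (fun e => v ∈ e)).card := rfl
          omega
        obtain ⟨e, he⟩ := hne
        obtain ⟨he, hve⟩ := Finset.mem_filter.1 he
        obtain ⟨f, hf, hef, hcard⟩ := mem_edg.1 he
        obtain ⟨u, hu⟩ : ∃ b, e.erase v = {b} := by
          rw [← Finset.card_eq_one, Finset.card_erase_of_mem hve, hcard]
        have heq : e = {u, v} := by
          rw [← Finset.insert_erase hve, hu, Finset.pair_comm]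
        have huv : u ≠ v := by
          have : u ∈ e.erase v := by rw [hu]; simp
          exact (Finset.mem_erase.1 this).1
        rw [heq] at he
        have hg := good_of_NF hN huv he
        have hΦ' := hCON W Φ u v hΦ huv he hg hn5
        have hv' := (hCONE W Φ u v hΦ huv he hg hn5).1
        have hlt : (vts (contr u v Φ)).card < n := by
          rw [hv', Finset.card_erase_of_mem hv]
          omega
        obtain ⟨b, hb, hFb⟩ := ih _ hlt W _ T a rfl hΦ' (mem_contr hT hvT) hmT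
        obtain ⟨β, hβ⟩ := hFCE W Φ b u v hΦ huv he hg hn5 hdg hFb
        refine ⟨Function.update b v β, ?_, hβ⟩
        intro x hx
        have : x ≠ v := by rintro rfl; exact hvT hx
        rw [Function.update_of_ne this]
        exact hb x hx
    · obtain ⟨T', h3, hp, hT'⟩ := not_NF hN
      obtain ⟨Φ1, Φ2, hd, hu, hT1, hI1, hI2, hv, he, hc1, hc2⟩ := hSPL W Φ T T' hΦ hT h3 hT' hp
      have hthree : ∀ f ∈ Φ1 ∪ Φ2, f.card = 3 := by rw [hu]; exact hΦ.three
      obtain ⟨b1, hb1, hF1⟩ := ih _ (by rw [← hn]; exact hc1) W (insert T' Φ1) T a rfl hI1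
        (Finset.mem_insert_of_mem hT1) hmT
      have hmT' : ¬ mono b1 T' := hFCM W _ b1 hF1 T' h3 (ps_sub (Finset.mem_insert_self _ _))
      obtain ⟨b2, hb2, hF2⟩ := ih _ (by rw [← hn]; exact hc2) W (insert T' Φ2) T' b1 rfl hI2
        (Finset.mem_insert_self _ _) hmT'
      have hT'1 : T' ⊆ vts Φ1 := by rw [← hv]; exact Finset.inter_subset_left
      have hT'2 : T' ⊆ vts Φ2 := by rw [← hv]; exact Finset.inter_subset_right
      have hvi : ∀ Φ' : Finset (Finset W), T' ⊆ vts Φ' → vts (insert T' Φ') = vts Φ' := by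
        intro Φ' h
        simp only [vts, Finset.biUnion_insert, id]
        rw [Finset.union_eq_right]
        exact h
      refine ⟨fun x => if x ∈ vts Φ1 then b1 x else b2 x, ?_, ?_⟩
      · intro x hx
        have : x ∈ vts Φ1 := by
          simp only [vts, Finset.mem_biUnion, id]
          exact ⟨T, hT1, hx⟩
        simp only [this, if_true]
        exact hb1 x hx
      · rw [← hu]
        refine (hFCG W Φ1 Φ2 T' _ hthree h3 hv he).2 ⟨?_, ?_⟩
        · refine FC_congr ?_ hF1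
          intro x hx
          rw [hvi _ hT'1] at hx
          simp only [hx, if_true]
        · refine FC_congr ?_ hF2
          intro x hx
          rw [hvi _ hT'2] at hx
          by_cases hx1 : x ∈ vts Φ1
          · have : x ∈ T' := by rw [← hv]; exact Finset.mem_inter.2 ⟨hx1, hx⟩
            simp only [hx1, if_true]
            exact hb2 x this
          · simp only [hx1, if_false]

theorem final (hCONE : S_CONE) (hCON : S_CON) (hSPL : S_SPL) (hDG3 : S_DG3) (hEX4 : S_EX4)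
    (hLOW : S_LOW)
    (hMONO : S_MONO) (hLD4 : S_LD4) (hGLUE : S_GLUE) (hBASE : S_BASE) (hFCM : S_FCM)
    (hFCC : S_FCC) (hFCD : S_FCD) (hFCG : S_FCG) (hFCE : S_FCE) (hFCB : S_FCB)
    (hFOR : S_FOR) (hSTR : S_STR) (hSCH : S_SCH) (hGEO : S_GEO)
    (V : Type) [Fintype V] (G : SimpleGraph V) (hP : Planar G) : HalfColourable G 3 := by
  classical
  obtain ⟨W, inst, Φ, φ, hΦ, hφ, hG⟩ := hP
  obtain ⟨T, hT⟩ := hΦ.ne
  obtain ⟨x, y, z, hxy, hxz, hyz, hTe⟩ := Finset.card_eq_three.1 (hΦ.three T hT)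
  have hm0 : ¬ mono (fun w => if w = x then (0 : Fin 3) else 1) T := by
    intro h
    have := h x (by rw [hTe]; simp) y (by rw [hTe]; simp)
    simp [hxy.symm] at this
  obtain ⟨a, ha, hF⟩ := COLALL hCONE hCON hSPL hDG3 hLOW hFCM hFCG hFCE hFCB _ W Φ T _ rfl hΦ hT hm0
  have hmT : ¬ mono a T := hFCM W Φ a hF T (hΦ.three T hT) (ps_sub hT)
  have hR := RDALL hCONE hCON hSPL hDG3 hEX4 hMONO hLD4 hGLUE hBASE hFCM hFCC hFCD hFCG _ W Φ T a
    rfl hΦ hT hF
  obtain ⟨c, hc⟩ := hFOR W Φ T a hΦ hT hmT hF hR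
  have hS := hSTR V W G (gr Φ) a c φ hφ (fun u w h => ⟨fun hh => h.ne (hφ hh), hG u w h⟩) hc
  obtain ⟨A, n, t, hA⟩ := hSCH V G _ _ hS
  exact hGEO V G A n t hA

end Pool.Agent.R489.HB
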