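import Pool.Agent.R489.HB.Stm

set_option autoImplicit false

namespace Pool.Agent.R489.HB

open Finset

theorem mem_edg {W : Type} [DecidableEq W] {Φ : Finset (Finset W)} {e : Finset W} :
    e ∈ edg Φ ↔ ∃ f ∈ Φ, e ⊆ f ∧ e.card = 2 := by
  simp [edg, Finset.mem_powersetCard]

theorem mem_fc {W : Type} [DecidableEq W] {Φ : Finset (Finset W)} {e f : Finset W} :
    f ∈ fc Φ e ↔ f ∈ Φ ∧ e ⊆ f := by
  simp [fc]

theorem F2 (hV : S_MVEC) {W : Type} [DecidableEq W] (T : Finset W) (a : W → Fin 3) (u v y : W)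
    (i : Fin 3) (c' : Finset W → Fin 3) (S : Set (Finset W)) (huv : u ≠ v) (hvT : v ∉ T)
    (ha : a u = a v) (hyu : y ≠ u) (hyv : y ≠ v) (hi : i ≠ a y)
    (hk : kap T u v ∉ Submodule.span (ZMod 2) (vec T a i '' S))
    (h1 : c' {u, y} = i → ¬ ({u, y} ⊆ T) → {u, y} ∈ S) (h : c' {u, y} = i) :
    vec T a i {v, y} ∉ Submodule.span (ZMod 2) (vec T a i '' S) := by
  obtain ⟨-, hB, hC⟩ := hV W T a u v y i huv hvT ha hyu hyv
  by_cases hT : ({u, y} : Finset W) ⊆ T
  · have hu : u ∈ T := hT (by simp)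
    have hy : y ∈ T := hT (by simp)
    rw [hC hi hu hy]
    exact hk
  · intro hmem
    apply hk
    rw [← hB hi]
    exact Submodule.add_mem _ (Submodule.subset_span ⟨_, h1 h hT, rfl⟩) hmem

theorem F1 (hV : S_MVEC) {W : Type} [DecidableEq W] (T : Finset W) (a : W → Fin 3) (u v y : W)
    (i : Fin 3) (c' : Finset W → Fin 3) (S : W → Set (Finset W)) (huv : u ≠ v) (hvT : v ∉ T)
    (ha : a u = a v) (hyu : y ≠ u) (hyv : y ≠ v) (hi : i ≠ a y)
    (hk : ∀ l, l = u ∨ l = v → kap T u v ∉ Submodule.span (ZMod 2) (vec T a i '' S l))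
    (h1 : c' {u, y} = i → ¬ ({u, y} ⊆ T) → {u, y} ∈ S v)
    (h2 : c' {u, y} ≠ i → S u = S v) :
    ∃ l, (l = u ∨ l = v) ∧ vec T a i {l, y} ∉ Submodule.span (ZMod 2) (vec T a i '' S l) ∧
      (({u, y} : Finset W) ⊆ T → l = v) := by
  by_cases hc : c' {u, y} = i
  · exact ⟨v, Or.inr rfl, F2 hV T a u v y i c' (S v) huv hvT ha hyu hyv hi (hk v (Or.inr rfl))
      h1 hc, fun _ => rfl⟩
  · obtain ⟨-, hB, hC⟩ := hV W T a u v y i huv hvT ha hyu hyv
    by_cases hT : ({u, y} : Finset W) ⊆ T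
    · have hu : u ∈ T := hT (by simp)
      have hy : y ∈ T := hT (by simp)
      refine ⟨v, Or.inr rfl, ?_, fun _ => rfl⟩
      rw [hC hi hu hy]
      exact hk v (Or.inr rfl)
    · by_cases hm : vec T a i {u, y} ∈ Submodule.span (ZMod 2) (vec T a i '' S u)
      · refine ⟨v, Or.inr rfl, ?_, fun h => rfl⟩
        intro hmem
        rw [h2 hc] at hm
        apply hk v (Or.inr rfl)
        rw [← hB hi]
        exact Submodule.add_mem _ hm hmem
      · exact ⟨u, Or.inl rfl, hm, fun h => absurd h hT⟩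

theorem lifted_indep2 {W : Type} [DecidableEq W] (Φ : Finset (Finset W)) (T : Finset W)
    (u v y1 y2 l1 l2 l2' : W) (c' : Finset W → Fin 3) (i : Fin 3) (huv : u ≠ v)
    (hyu : y2 ≠ u) (hyv : y2 ≠ v) (h2 : l2 = u ∨ l2 = v)
    (h2' : l2' = u ∨ l2' = v) (hc : c' {u, y2} ≠ i) :
    lifted Φ T u v y1 y2 l1 l2 c' i = lifted Φ T u v y1 y2 l1 l2' c' i := by
  have key : ∀ l : W, l = u ∨ l = v → mv u v {l, y2} = {u, y2} := by
    intro l hl
    rcases hl with rfl | rfl
    · have : v ∉ ({l, y2} : Finset W) := by simp [huv.symm, hyv.symm]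
      simp [mv, this]
    · have h : l ∈ ({l, y2} : Finset W) := by simp
      simp only [mv, h, if_true]
      have : ({l, y2} : Finset W).erase l = {y2} := by
        rw [Finset.erase_insert]; simp [hyv.symm]
      rw [this]
  have main : ∀ l l' : W, l = u ∨ l = v → l' = u ∨ l' = v →
      lifted Φ T u v y1 y2 l1 l c' i ⊆ lifted Φ T u v y1 y2 l1 l' c' i := by
    intro l l' hl hl' e he
    obtain ⟨h1, h2, h3, h4, h5, h6⟩ := he
    refine ⟨h1, h2, h3, ?_, h5, h6⟩
    rintro rfl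
    rw [key l' hl'] at h6
    exact hc h6
  exact Set.Subset.antisymm (main _ _ h2 h2') (main _ _ h2' h2)

theorem lifted_swap {W : Type} [DecidableEq W] (Φ : Finset (Finset W)) (T : Finset W)
    (u v y1 y2 l1 l2 : W) (c' : Finset W → Fin 3) (i : Fin 3) :
    lifted Φ T u v y1 y2 l1 l2 c' i = lifted Φ T u v y2 y1 l2 l1 c' i := by
  ext e
  simp only [lifted, Set.mem_setOf_eq]
  tauto

theorem lifted_indep1 {W : Type} [DecidableEq W] (Φ : Finset (Finset W)) (T : Finset W)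
    (u v y1 y2 l1 l1' l2 : W) (c' : Finset W → Fin 3) (i : Fin 3) (huv : u ≠ v)
    (hyu : y1 ≠ u) (hyv : y1 ≠ v) (h1 : l1 = u ∨ l1 = v)
    (h1' : l1' = u ∨ l1' = v) (hc : c' {u, y1} ≠ i) :
    lifted Φ T u v y1 y2 l1 l2 c' i = lifted Φ T u v y1 y2 l1' l2 c' i := by
  rw [lifted_swap, lifted_indep2 Φ T u v y2 y1 l2 l1 l1' c' i huv hyu hyv h1 h1' hc, lifted_swap]

theorem cover3 : ∀ i s0 s1 s2 : Fin 3, s0 ≠ s1 → s0 ≠ s2 → s1 ≠ s2 →
    (i = s0 ∨ i = s1 ∨ i = s2) := by decide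

theorem third3 : ∀ x y : Fin 3, x ≠ y → ∃ z : Fin 3, z ≠ x ∧ z ≠ y := by decide

theorem fin_step {W : Type} [DecidableEq W] (Φ : Finset (Finset W)) (T : Finset W)
    (a : W → Fin 3) (u v y1 y2 l1 l2 : W) (g1 g2 h1 h2 : Finset W) (c' : Finset W → Fin 3)
    (s0 s1 s2 : Fin 3) (hT : T ∈ Φ) (huv : u ≠ v)
    (A : Apx Φ u v y1 y2 g1 g2 h1 h2)
    (hd1 : s0 ≠ s1) (hd2 : s0 ≠ s2) (hd3 : s1 ≠ s2)
    (hl : ∀ i, LinearIndepOn (ZMod 2) (vec T a i) (lifted Φ T u v y1 y2 l1 l2 c' i))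
    (p0 : vec T a s0 {u, v} ∉
      Submodule.span (ZMod 2) (vec T a s0 '' lifted Φ T u v y1 y2 l1 l2 c' s0))
    (p1 : vec T a s1 {l1, y1} ∉
      Submodule.span (ZMod 2) (vec T a s1 '' lifted Φ T u v y1 y2 l1 l2 c' s1))
    (p2 : vec T a s2 {l2, y2} ∉
      Submodule.span (ZMod 2) (vec T a s2 '' lifted Φ T u v y1 y2 l1 l2 c' s2))
    (q1 : ({u, y1} : Finset W) ⊆ T → l1 = v) (q2 : ({u, y2} : Finset W) ⊆ T → l2 = v) :
    RD Φ T a := by
  classical
  refine ⟨fun e => if e = {u, v} then s0 else if e = {l1, y1} then s1 else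
    if e = {l2, y2} then s2 else c' (mv u v e), ?_⟩
  intro i
  have hX : ∀ X : Finset W, vec T a i X ∉
      Submodule.span (ZMod 2) (vec T a i '' lifted Φ T u v y1 y2 l1 l2 c' i) →
      (∀ e : Finset W, e ∈ edg Φ → ¬ e ⊆ T → (if e = {u, v} then s0 else if e = {l1, y1} then s1 else
        if e = {l2, y2} then s2 else c' (mv u v e)) = i → (e = {u, v} ∨ e = {l1, y1} ∨
        e = {l2, y2}) → e = X) →
      LinearIndepOn (ZMod 2) (vec T a i) {e : Finset W | e ∈ edg Φ ∧ ¬ e ⊆ T ∧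
        (fun e => if e = {u, v} then s0 else if e = {l1, y1} then s1 else
          if e = {l2, y2} then s2 else c' (mv u v e)) e = i} := by
    intro X hX1 hX2
    refine ((hl i).insert hX1).mono ?_
    intro e he
    obtain ⟨he1, he2, he3⟩ := he
    by_cases hs : e = {u, v} ∨ e = {l1, y1} ∨ e = {l2, y2}
    · left
      exact hX2 e he1 he2 he3 hs
    · right
      push Not at hs
      obtain ⟨n0, n1, n2⟩ := hs
      simp only [n0, n1, n2, if_false] at he3
      refine ⟨he1, n0, n1, n2, ?_, he3⟩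
      intro hsub
      by_cases hv : v ∈ e
      · obtain ⟨f, hf, hef, hcard⟩ := mem_edg.1 he1
        obtain ⟨b, hb⟩ : ∃ b, e.erase v = {b} := by
          rw [← Finset.card_eq_one, Finset.card_erase_of_mem hv, hcard]
        have heq : e = {v, b} := by
          rw [← Finset.insert_erase hv, hb]
        have hbv : b ≠ v := by
          have : b ∈ e.erase v := by rw [hb]; simp
          exact (Finset.mem_erase.1 this).1
        have hbu : b ≠ u := by
          rintro rfl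
          apply n0
          rw [heq, Finset.pair_comm]
        have hmv : mv u v e = {u, b} := by
          simp only [mv, hv, if_true, hb]
        rw [hmv] at hsub
        have hub : ({u, b} : Finset W) ∈ edg Φ :=
          mem_edg.2 ⟨T, hT, hsub, by rw [Finset.card_pair hbu.symm]⟩
        have hvb : ({v, b} : Finset W) ∈ edg Φ := by rw [← heq]; exact he1
        rcases (A.common b hbu hbv).1 ⟨hub, hvb⟩ with rfl | rfl
        · exact n1 (by rw [heq, q1 hsub])
        · exact n2 (by rw [heq, q2 hsub])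
      · apply he2
        have : mv u v e = e := by simp [mv, hv]
        rw [← this]; exact hsub
  have hcase : i = s0 ∨ i = s1 ∨ i = s2 := cover3 i s0 s1 s2 hd1 hd2 hd3
  rcases hcase with rfl | rfl | rfl
  · apply hX {u, v} p0
    intro e _ _ h3 h4
    rcases h4 with h4 | h4 | h4
    · exact h4
    · by_cases h0 : e = {u, v}
      · exact h0
      · rw [if_neg h0, if_pos h4] at h3
        exact absurd h3.symm hd1
    · by_cases h0 : e = {u, v}
      · exact h0
      · by_cases h1 : e = {l1, y1}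
        · rw [if_neg h0, if_pos h1] at h3
          exact absurd h3.symm hd1
        · rw [if_neg h0, if_neg h1, if_pos h4] at h3
          exact absurd h3.symm hd2
  · apply hX {l1, y1} p1
    intro e _ _ h3 h4
    by_cases h0 : e = {u, v}
    · rw [if_pos h0] at h3
      exact absurd h3 hd1
    · by_cases h1 : e = {l1, y1}
      · exact h1
      · rw [if_neg h0, if_neg h1] at h3
        rcases h4 with h4 | h4 | h4
        · exact absurd h4 h0
        · exact absurd h4 h1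
        · rw [if_pos h4] at h3
          exact absurd h3.symm hd3
  · apply hX {l2, y2} p2
    intro e _ _ h3 h4
    by_cases h0 : e = {u, v}
    · rw [if_pos h0] at h3
      exact absurd h3 hd2
    · by_cases h1 : e = {l1, y1}
      · rw [if_neg h0, if_pos h1] at h3
        exact absurd h3 hd3
      · rcases h4 with h4 | h4 | h4
        · exact absurd h4 h0
        · exact absurd h4 h1
        · exact h4

theorem MONO (hA : S_APEX) (hM : S_FCM) (hL : S_MLIFT) (hV : S_MVEC) : S_MONO := by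
  intro W _ Φ T a u v hΦ hT huv hvT he ha hg hn hF hRD
  obtain ⟨c', hc'⟩ := hRD
  obtain ⟨y1, y2, g1, g2, h1, h2, A⟩ := hA W Φ u v hΦ huv he hg hn
  have hface : ∀ y, y ≠ u → y ≠ v → {u, v, y} ∈ Φ → a y ≠ a u := by
    intro y hyu hyv hf hay
    have hc3 : ({u, v, y} : Finset W).card = 3 := by
      rw [Finset.card_eq_three]
      exact ⟨u, v, y, huv, hyu.symm, hyv.symm, rfl⟩
    apply hM W Φ a hF {u, v, y} hc3
    · intro e' he'
      rw [Finset.mem_powersetCard] at he'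
      exact mem_edg.2 ⟨_, hf, he'.1, he'.2⟩
    · have : ∀ x ∈ ({u, v, y} : Finset W), a x = a u := by
        intro x hx
        simp only [Finset.mem_insert, Finset.mem_singleton] at hx
        rcases hx with rfl | rfl | rfl
        · rfl
        · exact ha.symm
        · exact hay
      intro x hx z hz
      rw [this x hx, this z hz]
  have hf1 : ({u, v, y1} : Finset W) ∈ Φ := by
    have : ({u, v, y1} : Finset W) ∈ fc Φ {u, v} := by rw [A.faces]; simp
    exact (mem_fc.1 this).1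
  have hf2 : ({u, v, y2} : Finset W) ∈ Φ := by
    have : ({u, v, y2} : Finset W) ∈ fc Φ {u, v} := by rw [A.faces]; simp
    exact (mem_fc.1 this).1
  have a1 := hface y1 A.y1u A.y1v hf1
  have a2 := hface y2 A.y2u A.y2v hf2
  have hML : ∀ l1 l2 i, (l1 = u ∨ l1 = v) → (l2 = u ∨ l2 = v) →
      LinearIndepOn (ZMod 2) (vec T a i) (lifted Φ T u v y1 y2 l1 l2 c' i) ∧
      kap T u v ∉ Submodule.span (ZMod 2) (vec T a i '' lifted Φ T u v y1 y2 l1 l2 c' i) :=
    fun l1 l2 i hl1 hl2 => hL W Φ T a u v y1 y2 l1 l2 g1 g2 h1 h2 c' i hΦ hT huv hvT he ha hg hn A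
      hl1 hl2 (hc' i)
  have e1u : ({u, y1} : Finset W) ∈ edg Φ := ((A.common y1 A.y1u A.y1v).2 (Or.inl rfl)).1
  have e2u : ({u, y2} : Finset W) ∈ edg Φ := ((A.common y2 A.y2u A.y2v).2 (Or.inr rfl)).1
  have mvu : ∀ y, y ≠ u → y ≠ v → mv u v {u, y} = {u, y} := by
    intro y hyu hyv
    have : v ∉ ({u, y} : Finset W) := by simp [huv.symm, hyv.symm]
    simp [mv, this]
  -- membership of `{u, y}` in the lifted set with extra `{v, y}`
  have in1 : ∀ l2 i, (l2 = u ∨ l2 = v) → c' {u, y1} = i → ¬ (({u, y1} : Finset W) ⊆ T) →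
      ({u, y1} : Finset W) ∈ lifted Φ T u v y1 y2 v l2 c' i := by
    intro l2 i hl2 hc hT1
    refine ⟨e1u, ?_, ?_, ?_, ?_, ?_⟩
    · intro h
      have : y1 ∈ ({u, v} : Finset W) := by rw [← h]; simp
      simp [A.y1u, A.y1v] at this
    · intro h
      have : u ∈ ({v, y1} : Finset W) := by rw [← h]; simp
      simp [huv, A.y1u.symm] at this
    · intro h
      have : y2 ∈ ({u, y1} : Finset W) := by rw [h]; simp
      simp [A.y2u, A.y12.symm] at this
    · rw [mvu y1 A.y1u A.y1v]; exact hT1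
    · rw [mvu y1 A.y1u A.y1v]; exact hc
  have in2 : ∀ l1 i, (l1 = u ∨ l1 = v) → c' {u, y2} = i → ¬ (({u, y2} : Finset W) ⊆ T) →
      ({u, y2} : Finset W) ∈ lifted Φ T u v y1 y2 l1 v c' i := by
    intro l1 i hl1 hc hT1
    refine ⟨e2u, ?_, ?_, ?_, ?_, ?_⟩
    · intro h
      have : y2 ∈ ({u, v} : Finset W) := by rw [← h]; simp
      simp [A.y2u, A.y2v] at this
    · intro h
      have : y1 ∈ ({u, y2} : Finset W) := by rw [h]; simp
      simp [A.y1u, A.y12] at this
    · intro h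
      have : u ∈ ({v, y2} : Finset W) := by rw [← h]; simp
      simp [huv, A.y2u.symm] at this
    · rw [mvu y2 A.y2u A.y2v]; exact hT1
    · rw [mvu y2 A.y2u A.y2v]; exact hc
  have hkap : ∀ i, i ≠ a u → vec T a i {u, v} = kap T u v := fun i hi =>
    (hV W T a u v y1 i huv hvT ha A.y1u A.y1v).1 hi
  -- choices for the first and for the second pair
  have C1 : ∀ s1 l2, s1 ≠ a y1 → (l2 = u ∨ l2 = v) → ∃ l1, (l1 = u ∨ l1 = v) ∧
      vec T a s1 {l1, y1} ∉
        Submodule.span (ZMod 2) (vec T a s1 '' lifted Φ T u v y1 y2 l1 l2 c' s1) ∧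
      (({u, y1} : Finset W) ⊆ T → l1 = v) := by
    intro s1 l2 hs hl2
    exact F1 hV T a u v y1 s1 c' (fun l => lifted Φ T u v y1 y2 l l2 c' s1) huv hvT ha A.y1u A.y1v
      hs (fun l hl => (hML l l2 s1 hl hl2).2) (fun h h' => in1 l2 s1 hl2 h h')
      (fun h => lifted_indep1 Φ T u v y1 y2 u v l2 c' s1 huv A.y1u A.y1v (Or.inl rfl)
        (Or.inr rfl) h)
  have C2 : ∀ s2 l1, s2 ≠ a y2 → (l1 = u ∨ l1 = v) → ∃ l2, (l2 = u ∨ l2 = v) ∧
      vec T a s2 {l2, y2} ∉
        Submodule.span (ZMod 2) (vec T a s2 '' lifted Φ T u v y1 y2 l1 l2 c' s2) ∧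
      (({u, y2} : Finset W) ⊆ T → l2 = v) := by
    intro s2 l1 hs hl1
    exact F1 hV T a u v y2 s2 c' (fun l => lifted Φ T u v y1 y2 l1 l c' s2) huv hvT ha A.y2u A.y2v
      hs (fun l hl => (hML l1 l s2 hl1 hl).2) (fun h h' => in2 l1 s2 hl1 h h')
      (fun h => lifted_indep2 Φ T u v y1 y2 l1 u v c' s2 huv A.y2u A.y2v (Or.inl rfl)
        (Or.inr rfl) h)
  by_cases hk : c' {u, y1} = a u
  · -- the first pair stays in the slot `a u`
    obtain ⟨s2, hs2u, hs2y⟩ := third3 (a u) (a y2) a2.symm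
    obtain ⟨l2, hl2, p2, q2⟩ := C2 s2 v hs2y (Or.inr rfl)
    have p1 := F2 hV T a u v y1 (a u) c' (lifted Φ T u v y1 y2 v l2 c' (a u)) huv hvT ha A.y1u
      A.y1v a1.symm (hML v l2 (a u) (Or.inr rfl) hl2).2 (in1 l2 (a u) hl2) hk
    refine fin_step Φ T a u v y1 y2 v l2 g1 g2 h1 h2 c' (a y2) (a u) s2 hT huv A a2 hs2y.symm
      hs2u.symm (fun i => (hML v l2 i (Or.inr rfl) hl2).1) ?_ p1 p2 (fun _ => rfl) q2
    rw [hkap _ a2]
    exact (hML v l2 _ (Or.inr rfl) hl2).2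
  · obtain ⟨s1, hs1u, hs1y⟩ := third3 (a u) (a y1) a1.symm
    obtain ⟨l2, hl2, p2, q2⟩ := C2 (a u) u a2.symm (Or.inl rfl)
    obtain ⟨l1, hl1, p1, q1⟩ := C1 s1 l2 hs1y hl2
    rw [lifted_indep1 Φ T u v y1 y2 u l1 l2 c' (a u) huv A.y1u A.y1v (Or.inl rfl) hl1 hk] at p2
    refine fin_step Φ T a u v y1 y2 l1 l2 g1 g2 h1 h2 c' (a y1) s1 (a u) hT huv A hs1y.symm a1
      hs1u (fun i => (hML l1 l2 i hl1 hl2).1) ?_ p1 p2 q1 q2
    rw [hkap _ a1]
    exact (hML l1 l2 _ hl1 hl2).2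

end Pool.Agent.R489.HB
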