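import Pool.Agent.R489.HB.Main
import Pool.Agent.R106.HB.Apex
import Pool.Agent.R11.HB.Root
import Pool.Agent.R115.HB.FCG
import Pool.Agent.R146.HB.Glue
import Pool.Agent.R184.HB.STR
import Pool.Agent.R193.HB.SPLC
import Pool.Agent.R195.HB.SPLD
import Pool.Agent.R227.HB.Cone
import Pool.Agent.R23.HB.FCE
import Pool.Agent.R255.HB.EX4
import Pool.Agent.R28.HB.Low
import Pool.Agent.R326.HB.CONC
import Pool.Agent.R334.HB.CNT
import Pool.Agent.R37.HB.DG3
import Pool.Agent.R380.HB.Cnf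
import Pool.Agent.R380.HB.Tri
import Pool.Agent.R415.HB.MVEC
import Pool.Agent.R434.HB.FCB
import Pool.Agent.R474.HB.Eul
import Pool.Agent.R511.HB.SPLA
import Pool.Agent.R534.HB.GEO
import Pool.Agent.R656.HB.Mlift
import Pool.Agent.R715.HB.For
import Pool.Agent.R725.HB.BASE
import Pool.Agent.R725.HB.DG4
import Pool.Agent.R742.HB.Sch
import Pool.Agent.R783.HB.FCM
import Pool.Agent.R888.HB.CONS
import Pool.Agent.R891.HB.CON2
import Pool.Agent.R916.HB.Conl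
import Pool.Agent.R984.HB.FCD
import Pool.Agent.R991.HB.LD4
import Pool.Agent.HP981.HB.FCC

set_option autoImplicit false

namespace Pool.Agent.R489.HB

open Finset

theorem all_but_splb (hSPLB : S_SPLB) (V : Type) [Fintype V] (G : SimpleGraph V)
    (hP : Planar G) : HalfColourable G 3 :=
  have hCONE : S_CONE := R227.HB.CONE
  have hAPEX : S_APEX := R106.HB.APEX
  have hCNT : S_CNT := R334.HB.CNT
  have hCON : S_CON := CON (R891.HB.CON2 hAPEX hCNT) (R916.HB.CONL hAPEX hCNT hCONE)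
    (R326.HB.CONC hAPEX hCNT hCONE) (R888.HB.CONS hAPEX hCNT hCONE)
  have hSPL : S_SPL := SPL R511.HB.SPLA hSPLB (R193.HB.SPLC hSPLB) (R195.HB.SPLD hSPLB)
  have hDG3 : S_DG3 := R37.HB.DG3
  have hDG4 : S_DG4 := R725.HB.DG4 hDG3
  have hEUL : S_EUL := R474.HB.EUL
  have hEX4 : S_EX4 := R255.HB.EX4 hDG3 hDG4 hEUL
  have hLOW : S_LOW := R28.HB.LOW hDG3 hEUL
  have hFCM : S_FCM := R783.HB.FCM
  have hMVEC : S_MVEC := R415.HB.MVEC
  have hMLIFT : S_MLIFT := R656.HB.MLIFT hCONE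
  have hMONO : S_MONO := MONO hAPEX hFCM hMLIFT hMVEC
  final hCONE hCON hSPL hDG3 hEX4 hLOW hMONO (R991.HB.LD4 hCONE) R146.HB.GLUE R725.HB.BASE hFCM
    (HP981.HB.FCC hCONE) (R984.HB.FCD hCONE) R115.HB.FCG R23.HB.FCE R434.HB.FCB R715.HB.FOR
    R184.HB.STR (R742.HB.SCH R11.HB.ROOT) (R534.HB.GEO R380.HB.TRI R380.HB.CNF) V G hP

end Pool.Agent.R489.HB
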