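import Pool.Agent.R489.HB.Main

set_option autoImplicit false

namespace Pool.Agent.R489.HB

open Finset

theorem mem_vts' {W : Type} [DecidableEq W] {Φ : Finset (Finset W)} {x : W} :
    x ∈ vts Φ ↔ ∃ f ∈ Φ, x ∈ f := by
  simp [vts]

theorem SPLB : S_SPLB := by
  intro W _ Φ Φ1 Φ2 T' hΦ h3 hT' hp hs
  have key : ∀ Φ' : Finset (Finset W), (∀ e ∈ T'.powersetCard 2, (fc Φ' e).card = 1) →
      T'.powersetCard 2 ⊆ edg Φ' := by
    intro Φ' h e he
    have hne : (fc Φ' e).Nonempty := by
      rw [← Finset.card_pos, h e he]; exact one_pos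
    obtain ⟨f, hf⟩ := hne
    rw [mem_fc] at hf
    exact mem_edg.2 ⟨f, hf.1, hf.2, (Finset.mem_powersetCard.1 he).2⟩
  have hp1 := key Φ1 hs.one1
  have hp2 := key Φ2 hs.one2
  have hsub : ∀ Φ' : Finset (Finset W), T'.powersetCard 2 ⊆ edg Φ' → T' ⊆ vts Φ' := by
    intro Φ' h x hx
    obtain ⟨y, hy, hyx⟩ : ∃ y ∈ T', y ≠ x := by
      by_contra hcon
      push Not at hcon
      have : T' ⊆ {x} := fun y hy => by rw [hcon y hy]; simp
      have := Finset.card_le_card this
      rw [h3, Finset.card_singleton] at this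
      omega
    have : ({x, y} : Finset W) ∈ T'.powersetCard 2 := by
      rw [Finset.mem_powersetCard]
      refine ⟨?_, Finset.card_pair hyx.symm⟩
      intro z hz
      simp only [Finset.mem_insert, Finset.mem_singleton] at hz
      rcases hz with rfl | rfl
      · exact hx
      · exact hy
    obtain ⟨f, hf, hef, -⟩ := mem_edg.1 (h this)
    exact mem_vts'.2 ⟨f, hf, hef (by simp)⟩
  have hT1 := hsub Φ1 hp1
  have hT2 := hsub Φ2 hp2
  have h1Φ : ∀ f ∈ Φ1, f ∈ Φ := fun f hf => by
    rw [← hs.uni]; exact Finset.mem_union_left _ hf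
  have h2Φ : ∀ f ∈ Φ2, f ∈ Φ := fun f hf => by
    rw [← hs.uni]; exact Finset.mem_union_right _ hf
  have hvts : vts Φ1 ∩ vts Φ2 = T' := by
    apply Finset.Subset.antisymm
    · intro x hx
      obtain ⟨hx1, hx2⟩ := Finset.mem_inter.1 hx
      by_contra hxT
      have hl := hΦ.link x (fc Φ1 {x}) ?_ ?_
      · obtain ⟨f1, hf1, hxf1⟩ := mem_vts'.1 hx1
        obtain ⟨f2, hf2, hxf2⟩ := mem_vts'.1 hx2
        rcases hl with hl | hl
        · have : f1 ∈ fc Φ1 {x} := mem_fc.2 ⟨hf1, by simpa using hxf1⟩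
          rw [hl] at this
          simp at this
        · have : f2 ∈ fc Φ {x} := mem_fc.2 ⟨h2Φ f2 hf2, by simpa using hxf2⟩
          rw [← hl] at this
          have h1 := (mem_fc.1 this).1
          exact Finset.disjoint_left.1 hs.dis h1 hf2
      · intro f hf
        rw [mem_fc] at hf ⊢
        exact ⟨h1Φ f hf.1, hf.2⟩
      · intro e he hxe
        have heq : fc (fc Φ1 {x}) e = fc Φ1 e := by
          ext f
          simp only [mem_fc]
          constructor
          · rintro ⟨⟨a, b⟩, c⟩; exact ⟨a, c⟩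
          · rintro ⟨a, c⟩; exact ⟨⟨a, by simpa using c hxe⟩, c⟩
        rw [heq]
        have hep : e ∉ T'.powersetCard 2 := by
          intro h
          exact hxT ((Finset.mem_powersetCard.1 h).1 hxe)
        rcases hs.side e he hep with h | h
        · rw [h]; simp
        · have : fc Φ1 e = fc Φ e := by
            ext f
            simp only [mem_fc]
            constructor
            · rintro ⟨a, c⟩; exact ⟨h1Φ f a, c⟩
            · rintro ⟨a, c⟩
              rw [← hs.uni, Finset.mem_union] at a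
              rcases a with a | a
              · exact ⟨a, c⟩
              · have : f ∈ fc Φ2 e := mem_fc.2 ⟨a, c⟩
                rw [h] at this
                simp at this
          rw [this, hΦ.two e he]
          exact even_two
    · intro x hx
      exact Finset.mem_inter.2 ⟨hT1 hx, hT2 hx⟩
  have hvi : vts (insert T' Φ1) = vts Φ1 := by
    have : vts (insert T' Φ1) = T' ∪ vts Φ1 := by simp [vts, Finset.biUnion_insert]
    rw [this, Finset.union_eq_right]
    exact hT1
  refine ⟨hvts, ?_, ?_, hvi, ?_⟩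
  · apply Finset.Subset.antisymm
    · intro e he
      obtain ⟨he1, he2⟩ := Finset.mem_inter.1 he
      obtain ⟨f1, hf1, hef1, hc⟩ := mem_edg.1 he1
      obtain ⟨f2, hf2, hef2, -⟩ := mem_edg.1 he2
      by_contra hep
      rcases hs.side e (mem_edg.2 ⟨f1, h1Φ f1 hf1, hef1, hc⟩) hep with h | h
      · have : f1 ∈ fc Φ1 e := mem_fc.2 ⟨hf1, hef1⟩
        rw [h] at this
        simp at this
      · have : f2 ∈ fc Φ2 e := mem_fc.2 ⟨hf2, hef2⟩
        rw [h] at this
        simp at this
    · intro e he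
      exact Finset.mem_inter.2 ⟨hp1 he, hp2 he⟩
  · have : edg (insert T' Φ1) = T'.powersetCard 2 ∪ edg Φ1 := by
      simp [edg, Finset.biUnion_insert]
    rw [this, Finset.union_eq_right]
    exact hp1
  · rw [hvi]
    apply Finset.card_lt_card
    rw [Finset.ssubset_iff_of_subset]
    · obtain ⟨e, he⟩ : (T'.powersetCard 2).Nonempty := by
        rw [← Finset.card_pos, Finset.card_powersetCard, h3]
        decide
      obtain ⟨f, hf, hef, -⟩ := mem_edg.1 (hp2 he)
      have hne : ¬ f ⊆ T' := by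
        intro hsub'
        have : f = T' := Finset.eq_of_subset_of_card_le hsub' (by
          rw [h3, hΦ.three f (h2Φ f hf)])
        exact hT' (this ▸ h2Φ f hf)
      obtain ⟨y, hy, hyT⟩ := Finset.not_subset.1 hne
      refine ⟨y, mem_vts'.2 ⟨f, h2Φ f hf, hy⟩, ?_⟩
      intro hy1
      apply hyT
      rw [← hvts]
      exact Finset.mem_inter.2 ⟨hy1, mem_vts'.2 ⟨f, hf, hy⟩⟩
    · intro x hx
      obtain ⟨f, hf, hxf⟩ := mem_vts'.1 hx
      exact mem_vts'.2 ⟨f, h1Φ f hf, hxf⟩

end Pool.Agent.R489.HB
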